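import Pool.Agent.Helper65.SF.FIN
import Pool.Agent.Helper65.SF.FQ

/-!
# MP_d7d3f3_mp : the density of states of the square Fibonacci Hamiltonian with equal couplings

There is `lam0 > 0` such that for every `lam ∈ (0,lam0)` the density of states measure
`ν_lam = ν_{lam,lam}` of the square Fibonacci Hamiltonian is absolutely continuous with respect to Lebesgue measure.
All definitions needed to read the statement are in this file.
-/

namespace Pool.Agent.Results.MP_d7d3f3_mp.SquareFibonacciEvery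

open MeasureTheory Set

noncomputable section

/-- `α = (√5 - 1)/2` -/
def alpha : ℝ := (Real.sqrt 5 - 1) / 2

/-- the potential `lam * χ_{[1-α,1)}(n α + ω mod 1)` -/
def potential (lam ω : ℝ) (n : ℤ) : ℝ :=
  lam * Set.indicator (Set.Ico (1 - alpha) 1) (fun _ => (1 : ℝ)) (Int.fract ((n : ℝ) * alpha + ω))

/-- the Hilbert space `ℓ²(ℤ²)` -/
abbrev L2Z2 : Type := lp (fun _ : ℤ × ℤ => ℂ) 2

/-- the bounded linear operators on `ℓ²(ℤ²)` -/
abbrev Op : Type := L2Z2 →L[ℂ] L2Z2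

/-- the value `ψ(m,n)` -/
def value (ψ : L2Z2) (m n : ℤ) : ℂ := (ψ : ℤ × ℤ → ℂ) (m, n)

/-- the vector `T ψ` -/
def apply (T : Op) (ψ : L2Z2) : L2Z2 := T ψ

/-- `T` is the square Fibonacci Hamiltonian `H^{(2)}_{lam₁,lam₂,ω₁,ω₂}` on `ℓ²(ℤ²)` -/
def IsSquareFibonacci (lam₁ lam₂ ω₁ ω₂ : ℝ) (T : Op) : Prop :=
  ∀ (ψ : L2Z2) (m n : ℤ), value (apply T ψ) m n =
    value ψ (m + 1) n + value ψ (m - 1) n + value ψ m (n + 1) + value ψ m (n - 1)
      + ((potential lam₁ ω₁ m + potential lam₂ ω₂ n : ℝ) : ℂ) * value ψ m n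

/-- `δ_{(0,0)}` -/
def delta0 : L2Z2 := lp.single 2 ((0 : ℤ), (0 : ℤ)) (1 : ℂ)

/-- `g(T)` for a continuous function `g : ℝ → ℝ` and a bounded self-adjoint operator `T` on a Hilbert space `H`
(continuous functional calculus of the C*-algebra of bounded operators on `H`) -/
def applyFun {H : Type} [NormedAddCommGroup H] [InnerProductSpace ℂ H] [CompleteSpace H]
    (g : ℝ → ℝ) (T : H →L[ℂ] H) : H →L[ℂ] H :=
  cfc (fun z : ℂ => ((g z.re : ℝ) : ℂ)) T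

/-- `⟨v, g(T) v⟩` -/
def expectation {H : Type} [NormedAddCommGroup H] [InnerProductSpace ℂ H] [CompleteSpace H]
    (v : H) (g : ℝ → ℝ) (T : H →L[ℂ] H) : ℝ :=
  (inner ℂ v (applyFun g T v)).re

/-- `T` is self-adjoint -/
def IsSA {H : Type} [NormedAddCommGroup H] [InnerProductSpace ℂ H] [CompleteSpace H]
    (T : H →L[ℂ] H) : Prop :=
  IsSelfAdjoint T

/-- `⟨δ₀, g(T) δ₀⟩` for a self-adjoint operator `T` on `ℓ²(ℤ²)` -/
def meanAt0 (g : ℝ → ℝ) (T : Op) : ℝ := expectation delta0 g T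

/-- `T` is self-adjoint and is the square Fibonacci Hamiltonian `H^{(2)}_{lam₁,lam₂,ω₁,ω₂}` -/
def IsHamiltonian (lam₁ lam₂ ω₁ ω₂ : ℝ) (T : Op) : Prop :=
  IsSA T ∧ IsSquareFibonacci lam₁ lam₂ ω₁ ω₂ T

/-- `ν` is the density of states measure `ν_{lam₁,lam₂}`: a Borel probability measure with
`∫ g dν = ∫_{𝕋²} ⟨δ₀, g(H) δ₀⟩ dω₁ dω₂` for all continuous `g` (both integrals exist). -/
def IsDOS (lam₁ lam₂ : ℝ) (ν : Measure ℝ) : Prop :=
  IsProbabilityMeasure ν ∧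
  ∃ T : ℝ → ℝ → Op,
    (∀ ω₁ ω₂, IsHamiltonian lam₁ lam₂ ω₁ ω₂ (T ω₁ ω₂)) ∧
    ∀ g : ℝ → ℝ, Continuous g → Integrable g ν ∧
      IntegrableOn (fun ω : ℝ × ℝ => meanAt0 g (T ω.1 ω.2)) (Ioc 0 1 ×ˢ Ioc 0 1) ∧
      ∫ x, g x ∂ν = ∫ ω in (Ioc (0 : ℝ) 1 ×ˢ Ioc (0 : ℝ) 1), meanAt0 g (T ω.1 ω.2)

end

/-- There is `lam0 > 0` such that for every `lam ∈ (0, lam0)` the density of states measure
`ν_lam = ν_{lam,lam}` exists, is unique, and is absolutely continuous with respect to Lebesgue measure. -/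
theorem result : ∃ lam0 : ℝ, 0 < lam0 ∧ ∀ lam ∈ Ioo 0 lam0,
    ∃ ν : Measure ℝ, IsDOS lam lam ν ∧ (∀ ν' : Measure ℝ, IsDOS lam lam ν' → ν' = ν) ∧
      ν ≪ volume :=
  SF.final_FIB_of SF.final_gen

end Pool.Agent.Results.MP_d7d3f3_mp.SquareFibonacciEvery
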